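import Mathlib

/-!
# Braids, band factorisations and the smooth four-genus in braided form: definitions

A braid is given by a word, a list of letters: the letter `(i, true)` is the generator which
exchanges the strands `i` and `i + 1` (the strands are numbered `0, 1, 2, ...`), the letter
`(i, false)` is its inverse.
-/

set_option autoImplicit false

namespace Pool.H4.SGW

/-- `Same u v`: the words `u` and `v` are the same braid, that is, they are equal in the group
generated by the letters with the relations of far commutation and the braid relations. -/
inductive Same : List (ℕ × Bool) → List (ℕ × Bool) → Prop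
  | refl (u : List (ℕ × Bool)) : Same u u
  | symm (u v : List (ℕ × Bool)) : Same u v → Same v u
  | trans (u v w : List (ℕ × Bool)) : Same u v → Same v w → Same u w
  | app (u v x y : List (ℕ × Bool)) : Same u v → Same x y → Same (u ++ x) (v ++ y)
  | cancel (i : ℕ) (a : Bool) : Same [(i, a), (i, !a)] []
  | far (i j : ℕ) : i + 2 ≤ j → Same [(i, true), (j, true)] [(j, true), (i, true)]
  | braid (i : ℕ) : Same [(i, true), (i + 1, true), (i, true)]
      [(i + 1, true), (i, true), (i + 1, true)]

/-- The inverse braid. -/
def inv (u : List (ℕ × Bool)) : List (ℕ × Bool) := (u.map fun p => (p.1, !p.2)).reverse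

/-- The braid shifted by `k` strands. -/
def shift (k : ℕ) (u : List (ℕ × Bool)) : List (ℕ × Bool) := u.map fun p => (p.1 + k, p.2)

/-- The permutation of the strands: every letter `(i, a)` exchanges `i` and `i + 1`. -/
def perm (u : List (ℕ × Bool)) (x : ℕ) : ℕ :=
  u.foldr (fun p y => if y = p.1 then p.1 + 1 else if y = p.1 + 1 then p.1 else y) x

/-- The word is a braid on the strands `0, ..., n - 1`. -/
def On (n : ℕ) (u : List (ℕ × Bool)) : Prop := ∀ p ∈ u, p.1 + 1 < n

/-- A band on `n` strands: a conjugate of a letter. -/
def IsBand (n : ℕ) (x : List (ℕ × Bool)) : Prop :=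
  ∃ u i a, On n u ∧ i + 1 < n ∧ x = u ++ [(i, a)] ++ inv u

/-- The surface made of `n` discs (the strands) and the bands in the list `l` is connected: every
set of strands which contains strand `0` and is closed under the permutations of the bands
contains all strands `0, ..., n - 1`. -/
def Conn (n : ℕ) (l : List (List (ℕ × Bool))) : Prop :=
  ∀ S : Set ℕ, 0 ∈ S → (∀ x ∈ l, ∀ i ∈ S, perm x i ∈ S) → ∀ i < n, i ∈ S

/-- `Surf n w e`: the closure of the braid `w` on `n` strands bounds a connected surface of Euler
characteristic `1 - e` in braided form: there are `b` births (extra trivial strands) and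
`n + 2 b + e - 1` bands on `n + b` strands with product `w`, and the `b` trivial components are
capped off. -/
def Surf (n : ℕ) (w : List (ℕ × Bool)) (e : ℕ) : Prop :=
  ∃ b l, (∀ x ∈ l, IsBand (n + b) x) ∧ Same l.flatten w ∧ l.length + 1 = n + 2 * b + e ∧
    Conn (n + b) l

/-- The 4-genus of the closure of the braid `w` on `n` strands. -/
noncomputable def g4 (n : ℕ) (w : List (ℕ × Bool)) : ℕ := sInf {g | Surf n w (2 * g)}

/-- The closure of the braid `w` on `n` strands is a knot. -/
def IsKnot (n : ℕ) (w : List (ℕ × Bool)) : Prop := 0 < n ∧ On n w ∧ Conn n [w]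

/-- The braid on `k (m - 1) + 1` strands whose closure is the connected sum of `k` copies of the
closure of the braid `w` on `m` strands. -/
def nfold (m : ℕ) (w : List (ℕ × Bool)) (k : ℕ) : List (ℕ × Bool) :=
  ((List.range k).map fun j => shift (j * (m - 1)) w).flatten

/-- The braid whose closure is the knot `7_7`. -/
def w77 : List (ℕ × Bool) :=
  [(0, false), (1, true), (0, false), (1, true), (2, false), (1, true), (2, false)]

/-- The 4-genus of the connected sum of `k` copies of the knot, the closure of the braid `w` on
`m` strands, divided by `k`, tends to `c`. -/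
def StableGenus (m : ℕ) (w : List (ℕ × Bool)) (c : ℝ) : Prop :=
  Filter.Tendsto (fun k : ℕ => (g4 (k * (m - 1) + 1) (nfold m w k) : ℝ) / k) Filter.atTop (nhds c)

end Pool.H4.SGW
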