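import Mathlib
import Pool.Agent.H92.SG.All

/-!
# The stable 4-genus of the knot `7_7` lies between `1/10` and `1/3`

`g4 n β` is the 4-genus of the closure of the braid `β` on `n` strands, defined by braided
surfaces: `Surf n β e` says that for some `r` the braid `β` is the product of a connected list of
`n + 2r + e - 1` bands (conjugates of generators and their inverses) on `n + r` strands, i.e. that
the closure of `β` bounds in the 4-ball a connected surface of Euler characteristic `1 - e` with
`n + r` discs, these bands, and `r` caps. By the theorems of Rudolph and Markov this is the smooth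
4-genus. `nfold 4 β77 n` is the braid on `3n + 1` strands whose closure is `n · 7_7`.
-/

namespace Pool.H4.SGW.Old

open Pool.Agent.H92.SG

/-- The closure of `β77` is a knot, its stable 4-genus exists and lies between `1/10` and
`1/3`. -/
theorem result : IsKnot 4 β77 ∧ ∃ c : ℝ, Filter.Tendsto
    (fun n : ℕ => (g4 (n * (4 - 1) + 1) (nfold 4 β77 n) : ℝ) / n) Filter.atTop (nhds c) ∧
    1 / 10 ≤ c ∧ c ≤ 1 / 3 :=
  final

end Pool.H4.SGW.Old
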