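import Pool.Agent.H4.SGW.Defs
import Pool.Agent.H4.SGW.Old

/-! The statement over words from the one over the presented braid group. -/

set_option autoImplicit false

namespace Pool.H4.SGW

open Pool.Agent.H92.SG (B σ)

/-- The letter. -/
def lt (p : ℕ × Bool) : B := if p.2 then σ p.1 else (σ p.1)⁻¹

/-- The braid of a word. -/
def wd (u : List (ℕ × Bool)) : B := (u.map lt).prod

theorem wd_nil : wd [] = 1 := rfl

theorem wd_cons (p : ℕ × Bool) (u : List (ℕ × Bool)) : wd (p :: u) = lt p * wd u := by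
  simp [wd]

theorem wd_append (u v : List (ℕ × Bool)) : wd (u ++ v) = wd u * wd v := by
  simp [wd]

theorem lt_not (p : ℕ × Bool) : lt (p.1, !p.2) = (lt p)⁻¹ := by
  obtain ⟨i, a⟩ := p
  cases a <;> simp [lt]

theorem inv_cons (p : ℕ × Bool) (u : List (ℕ × Bool)) : inv (p :: u) = inv u ++ [(p.1, !p.2)] := by
  simp [inv]

theorem wd_inv (u : List (ℕ × Bool)) : wd (inv u) = (wd u)⁻¹ := by
  induction u with
  | nil => simp [inv, wd]
  | cons p u ih =>
    rw [inv_cons, wd_append, ih, wd_cons p u, mul_inv_rev, wd_cons, wd_nil, mul_one, lt_not]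

theorem same_wd {u v : List (ℕ × Bool)} (h : Same u v) : wd u = wd v := by
  induction h with
  | refl => rfl
  | symm _ _ _ h => exact h.symm
  | trans _ _ _ _ _ h1 h2 => exact h1.trans h2
  | app _ _ _ _ _ _ h1 h2 => rw [wd_append, wd_append, h1, h2]
  | cancel i a => rw [wd_cons, wd_cons, wd_nil, mul_one, lt_not (i, a), mul_inv_cancel]
  | far i j h =>
    simp only [wd_cons, wd_nil, mul_one, lt, if_true]
    exact Pool.Agent.H92.SG.σ_comm h
  | braid i =>
    simp only [wd_cons, wd_nil, mul_one, lt, if_true, ← mul_assoc]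
    exact Pool.Agent.H92.SG.σ_braid i

theorem same_inv_left (u : List (ℕ × Bool)) : Same (inv u ++ u) [] := by
  induction u with
  | nil => exact .refl _
  | cons p u ih =>
    rw [inv_cons]
    have h1 : Same [(p.1, !p.2), p] [] := by
      have := Same.cancel p.1 (!p.2)
      rwa [Bool.not_not] at this
    have h2 : Same (inv u ++ ([(p.1, !p.2), p] ++ u)) (inv u ++ ([] ++ u)) :=
      .app _ _ _ _ (.refl _) (.app _ _ _ _ h1 (.refl _))
    have e : inv u ++ [(p.1, !p.2)] ++ p :: u = inv u ++ ([(p.1, !p.2), p] ++ u) := by simp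
    rw [e]
    exact h2.trans _ _ _ ih

theorem inv_inv' (u : List (ℕ × Bool)) : inv (inv u) = u := by
  simp [inv, List.map_reverse, Function.comp_def]

theorem same_inv_right (u : List (ℕ × Bool)) : Same (u ++ inv u) [] := by
  have := same_inv_left (inv u)
  rwa [inv_inv'] at this

theorem same_inv {u v : List (ℕ × Bool)} (h : Same u v) : Same (inv u) (inv v) := by
  have h1 : Same (inv u) (inv u ++ (v ++ inv v)) := by
    have := Same.app _ _ _ _ (Same.refl (inv u)) (Same.symm _ _ (same_inv_right v))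
    rwa [List.append_nil] at this
  have h2 : Same (inv u ++ (v ++ inv v)) (inv u ++ (u ++ inv v)) :=
    .app _ _ _ _ (.refl _) (.app _ _ _ _ (.symm _ _ h) (.refl _))
  have h3 : Same (inv u ++ (u ++ inv v)) (inv v) := by
    rw [← List.append_assoc]
    exact Same.app _ _ _ _ (same_inv_left u) (Same.refl (inv v))
  exact (h1.trans _ _ _ h2).trans _ _ _ h3

/-- The setoid of words. -/
def st : Setoid (List (ℕ × Bool)) := ⟨Same, .refl, fun h => .symm _ _ h, fun h1 h2 => .trans _ _ _ h1 h2⟩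

/-- The group of words. -/
def Q : Type := Quotient st

instance : Mul Q :=
  ⟨Quotient.map₂ (fun u v => u ++ v) fun _ _ h1 _ _ h2 => Same.app _ _ _ _ h1 h2⟩
instance : One Q := ⟨Quotient.mk st []⟩
instance : Inv Q := ⟨Quotient.map inv fun _ _ h => same_inv h⟩

/-- The class of a word. -/
def cl (u : List (ℕ × Bool)) : Q := Quotient.mk st u

theorem cl_append (u v : List (ℕ × Bool)) : cl (u ++ v) = cl u * cl v := rfl

theorem cl_eq {u v : List (ℕ × Bool)} : cl u = cl v ↔ Same u v :=
  ⟨fun h => Quotient.exact h, fun h => Quotient.sound h⟩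

instance : Group Q :=
  Group.ofLeftAxioms
    (by
      rintro ⟨a⟩ ⟨b⟩ ⟨c⟩
      exact congrArg cl (List.append_assoc a b c))
    (by
      rintro ⟨a⟩
      rfl)
    (by
      rintro ⟨a⟩
      exact Quotient.sound (same_inv_left a))

/-- The homomorphism. -/
def hom : B →* Q :=
  Pool.Agent.H92.SG.lift (fun i => cl [(i, true)])
    (fun i j h => Quotient.sound (Same.far i j h)) (fun i => Quotient.sound (Same.braid i))

theorem hom_lt (p : ℕ × Bool) : hom (lt p) = cl [p] := by
  obtain ⟨i, a⟩ := p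
  cases a
  · show hom ((σ i)⁻¹) = _
    rw [map_inv]
    show (Pool.Agent.H92.SG.lift _ _ _ (σ i))⁻¹ = _
    rw [Pool.Agent.H92.SG.lift_σ]
    rfl
  · show Pool.Agent.H92.SG.lift _ _ _ (σ i) = _
    rw [Pool.Agent.H92.SG.lift_σ]

theorem hom_wd (u : List (ℕ × Bool)) : hom (wd u) = cl u := by
  induction u with
  | nil => rw [wd_nil, map_one]; rfl
  | cons p u ih => rw [wd_cons, map_mul, ih, hom_lt]; rfl

theorem same_iff (u v : List (ℕ × Bool)) : Same u v ↔ wd u = wd v :=
  ⟨same_wd, fun h => cl_eq.1 (by rw [← hom_wd, ← hom_wd, h])⟩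

theorem perm_wd (u : List (ℕ × Bool)) (x : ℕ) : Pool.Agent.H92.SG.perm (wd u) x = perm u x := by
  induction u with
  | nil => rfl
  | cons p u ih =>
    rw [wd_cons, map_mul, Equiv.Perm.mul_apply, ih]
    show _ = if perm u x = p.1 then p.1 + 1 else if perm u x = p.1 + 1 then p.1 else perm u x
    generalize perm u x = y
    obtain ⟨i, a⟩ := p
    have h : Pool.Agent.H92.SG.perm (lt (i, a)) = Equiv.swap i (i + 1) := by
      cases a
      · show Pool.Agent.H92.SG.perm ((σ i)⁻¹) = _
        rw [map_inv, Pool.Agent.H92.SG.perm_σ, Equiv.swap_inv]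
      · exact Pool.Agent.H92.SG.perm_σ i
    rw [h, Equiv.swap_apply_def]

theorem on_mem {n : ℕ} {u : List (ℕ × Bool)} (h : On n u) : wd u ∈ Pool.Agent.H92.SG.Bn n := by
  induction u with
  | nil => exact one_mem _
  | cons p u ih =>
    rw [wd_cons]
    refine mul_mem ?_ (ih fun q hq => h q (List.mem_cons_of_mem _ hq))
    have h1 : σ p.1 ∈ Pool.Agent.H92.SG.Bn n :=
      Pool.Agent.H92.SG.σ_mem_Bn (h p List.mem_cons_self)
    unfold lt
    split_ifs
    · exact h1
    · exact inv_mem h1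

theorem on_append {n : ℕ} {u v : List (ℕ × Bool)} (h1 : On n u) (h2 : On n v) : On n (u ++ v) := by
  intro p hp
  rcases List.mem_append.1 hp with h | h
  · exact h1 p h
  · exact h2 p h

theorem on_inv {n : ℕ} {u : List (ℕ × Bool)} (h : On n u) : On n (inv u) := by
  intro p hp
  simp only [inv, List.mem_reverse, List.mem_map] at hp
  obtain ⟨q, hq, rfl⟩ := hp
  exact h q hq

theorem exists_word {n : ℕ} {x : B} (h : x ∈ Pool.Agent.H92.SG.Bn n) :
    ∃ u, On n u ∧ wd u = x := by
  induction h using Subgroup.closure_induction with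
  | mem y hy =>
    obtain ⟨i, hi, rfl⟩ := hy
    exact ⟨[(i, true)], fun p hp => by rw [List.mem_singleton.1 hp]; exact hi, by simp [wd, lt]⟩
  | one => exact ⟨[], fun p hp => absurd hp List.not_mem_nil, rfl⟩
  | mul y z _ _ hy hz =>
    obtain ⟨u, hu, rfl⟩ := hy
    obtain ⟨v, hv, rfl⟩ := hz
    exact ⟨u ++ v, on_append hu hv, wd_append u v⟩
  | inv y _ hy =>
    obtain ⟨u, hu, rfl⟩ := hy
    exact ⟨inv u, on_inv hu, wd_inv u⟩

theorem band_to {n : ℕ} {x : List (ℕ × Bool)} (h : IsBand n x) :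
    Pool.Agent.H92.SG.IsBand n (wd x) := by
  obtain ⟨u, i, a, hu, hi, rfl⟩ := h
  refine ⟨wd u, on_mem hu, i, hi, ?_⟩
  rw [wd_append, wd_append, wd_inv]
  cases a
  · right; simp [wd, lt]
  · left; simp [wd, lt]

theorem band_of {n : ℕ} {x : B} (h : Pool.Agent.H92.SG.IsBand n x) :
    ∃ y, IsBand n y ∧ wd y = x := by
  obtain ⟨w, hw, i, hi, h⟩ := h
  obtain ⟨u, hu, rfl⟩ := exists_word hw
  rcases h with rfl | rfl
  · refine ⟨u ++ [(i, true)] ++ inv u, ⟨u, i, true, hu, hi, rfl⟩, ?_⟩
    rw [wd_append, wd_append, wd_inv]; simp [wd, lt]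
  · refine ⟨u ++ [(i, false)] ++ inv u, ⟨u, i, false, hu, hi, rfl⟩, ?_⟩
    rw [wd_append, wd_append, wd_inv]; simp [wd, lt]

theorem wd_flatten (l : List (List (ℕ × Bool))) : wd l.flatten = (l.map wd).prod := by
  induction l with
  | nil => rfl
  | cons x l ih => rw [List.flatten_cons, wd_append, ih]; simp

theorem words_of {n : ℕ} {l : List B} (h : ∀ x ∈ l, Pool.Agent.H92.SG.IsBand n x) :
    ∃ k : List (List (ℕ × Bool)), (∀ x ∈ k, IsBand n x) ∧ k.map wd = l := by
  induction l with
  | nil => exact ⟨[], fun x hx => absurd hx List.not_mem_nil, rfl⟩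
  | cons x l ih =>
    obtain ⟨k, hk, rfl⟩ := ih fun y hy => h y (List.mem_cons_of_mem _ hy)
    obtain ⟨y, hy, rfl⟩ := band_of (h x List.mem_cons_self)
    refine ⟨y :: k, fun z hz => ?_, rfl⟩
    rcases List.mem_cons.1 hz with rfl | hz
    · exact hy
    · exact hk z hz

theorem conn_iff (n : ℕ) (l : List (List (ℕ × Bool))) :
    Pool.Agent.H92.SG.Conn n (l.map wd) ↔ Conn n l := by
  unfold Pool.Agent.H92.SG.Conn Conn
  refine forall_congr' fun S => imp_congr_right fun _ => ?_
  simp only [List.forall_mem_map, perm_wd]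

theorem surf_iff (n : ℕ) (w : List (ℕ × Bool)) (e : ℕ) :
    Surf n w e ↔ Pool.Agent.H92.SG.Surf n (wd w) e := by
  constructor
  · rintro ⟨b, l, h1, h2, h3, h4⟩
    refine ⟨b, l.map wd, List.forall_mem_map.2 fun x hx => band_to (h1 x hx), ?_, ?_,
      (conn_iff _ _).2 h4⟩
    · rw [← wd_flatten]; exact same_wd h2
    · rw [List.length_map]; exact h3
  · rintro ⟨b, l, h1, h2, h3, h4⟩
    obtain ⟨k, hk, rfl⟩ := words_of h1
    refine ⟨b, k, hk, ?_, ?_, (conn_iff _ _).1 h4⟩
    · rw [same_iff, wd_flatten]; exact h2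
    · rw [← h3, List.length_map]

theorem g4_eq (n : ℕ) (w : List (ℕ × Bool)) : g4 n w = Pool.Agent.H92.SG.g4 n (wd w) := by
  unfold g4 Pool.Agent.H92.SG.g4
  simp only [surf_iff]

theorem sh_wd (k : ℕ) (u : List (ℕ × Bool)) :
    (Pool.Agent.H92.SG.sh^[k]) (wd u) = wd (shift k u) := by
  induction k generalizing u with
  | zero => simp [shift]
  | succ k ih =>
    rw [Function.iterate_succ_apply', ih]
    have h : ∀ v, Pool.Agent.H92.SG.sh (wd v) = wd (shift 1 v) := by
      intro v
      induction v with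
      | nil => rw [wd_nil, map_one]; rfl
      | cons p v ih2 =>
        rw [wd_cons, map_mul, ih2]
        show _ = wd ((p.1 + 1, p.2) :: shift 1 v)
        rw [wd_cons]
        congr 1
        obtain ⟨i, a⟩ := p
        cases a
        · show Pool.Agent.H92.SG.sh ((σ i)⁻¹) = (σ (i + 1))⁻¹
          rw [map_inv, Pool.Agent.H92.SG.sh_σ]
        · exact Pool.Agent.H92.SG.sh_σ i
    rw [h]
    congr 1
    simp [shift, Function.comp_def, add_assoc]

theorem nfold_wd (m : ℕ) (w : List (ℕ × Bool)) (k : ℕ) :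
    wd (nfold m w k) = Pool.Agent.H92.SG.nfold m (wd w) k := by
  induction k with
  | zero => rfl
  | succ k ih =>
    have h : nfold m w (k + 1) = nfold m w k ++ shift (k * (m - 1)) w := by
      simp [nfold, List.range_succ]
    rw [h, wd_append, ih, ← sh_wd]
    rfl

theorem wd_w77 : wd w77 = Pool.Agent.H92.SG.β77 := by
  simp only [w77, wd_cons, wd_nil, lt, Pool.Agent.H92.SG.β77, mul_one, mul_assoc, if_true,
    Bool.false_eq_true, if_false]

theorem main : IsKnot 4 w77 ∧ ∃ c, StableGenus 4 w77 c ∧ 1 / 10 ≤ c ∧ c ≤ 1 / 3 := by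
  obtain ⟨h1, c, h2, h3⟩ := Old.result
  refine ⟨⟨h1.1, ?_, ?_⟩, c, ?_, h3⟩
  · intro p hp
    revert p
    unfold w77
    decide
  · have h := h1.2.2
    rw [← conn_iff]
    intro S h0 hS
    refine h S h0 fun i hi => ?_
    have := hS (wd w77) (by simp) i hi
    rwa [wd_w77] at this
  · unfold StableGenus
    simp only [g4_eq, nfold_wd, wd_w77]
    exact h2

end Pool.H4.SGW
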